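import Pool.Agent.W571.RR.Mom

/-! RR-EV1: the polynomial is small where the potential is negative. -/

set_option autoImplicit false

open MeasureTheory Polynomial

namespace Pool.Agent.W571.RR.EV1

open Pool.Agent.W751.RR Pool.Agent.W751.CD Pool.Agent.W571.RR.Mom

lemma prod_lint {μ : Measure ℂ} [SigmaFinite μ] (f : ℂ → ENNReal) (hf : Measurable f) (N : ℕ) :
    ∫⁻ z : Fin N → ℂ, ∏ i, f (z i) ∂(Measure.pi fun _ => μ) = (∫⁻ z, f z ∂μ) ^ N := by
  induction N with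
  | zero => simp
  | succ n ih =>
    have hp := (measurePreserving_piFinSuccAbove (fun _ : Fin (n + 1) => μ) 0).symm
    have hm : Measurable (fun z : Fin (n + 1) → ℂ => ∏ i, f (z i)) := by
      apply Finset.measurable_prod
      intro i _
      exact hf.comp (measurable_pi_apply i)
    rw [← hp.lintegral_comp hm]
    have he : ∀ a : ℂ × (Fin n → ℂ),
        ∏ i, f ((MeasurableEquiv.piFinSuccAbove (fun _ : Fin (n + 1) => ℂ) 0).symm a i) =
          f a.1 * ∏ i, f (a.2 i) := by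
      intro a
      rw [Fin.prod_univ_succ]
      rfl
    simp_rw [he]
    rw [lintegral_prod_mul (f := f) (g := fun z : Fin n → ℂ => ∏ i, f (z i)) hf.aemeasurable]
    · rw [ih, pow_succ, mul_comm]
    · apply Measurable.aemeasurable
      apply Finset.measurable_prod
      intro i _
      exact hf.comp (measurable_pi_apply i)

lemma eval_norm {N : ℕ} (z : Fin N → ℂ) (w : ℂ) : ‖(P z).eval w‖ = ∏ i, ‖w - z i‖ := by
  unfold P
  rw [eval_prod, norm_prod]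
  simp

/-- Markov's inequality for a product -/
lemma markov {ρ : ℝ} (hρ : 0 < ρ) {N : ℕ} (f : ℂ → ℝ) (hf : Measurable f) (hf0 : ∀ z, 0 ≤ f z)
    {θ q A : ℝ} (hθ : 0 < θ) (hq : 0 ≤ q)
    (h : ∫⁻ z, ENNReal.ofReal (f z ^ q) ∂(m1 ρ) ≤ ENNReal.ofReal (Real.exp A)) :
    mN ρ N {z | θ < ∏ i, f (z i)} ≤ ENNReal.ofReal (Real.exp (N * A) / θ ^ q) := by
  have := prob hρ
  have hθq : 0 < θ ^ q := by positivity
  have hm : Measurable (fun z : Fin N → ℂ => ∏ i, ENNReal.ofReal (f (z i) ^ q)) := by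
    apply Finset.measurable_prod
    intro i _
    exact ENNReal.measurable_ofReal.comp
      ((hf.comp (measurable_pi_apply i)).pow_const q)
  have h1 : {z : Fin N → ℂ | θ < ∏ i, f (z i)} ⊆
      {z | ENNReal.ofReal (θ ^ q) ≤ ∏ i, ENNReal.ofReal (f (z i) ^ q)} := by
    intro z hz
    simp only [Set.mem_ofPred_eq] at hz ⊢
    rw [← ENNReal.ofReal_prod_of_nonneg (fun i _ => Real.rpow_nonneg (hf0 _) _),
      Real.finsetProd_rpow _ _ (fun i _ => hf0 _)]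
    apply ENNReal.ofReal_le_ofReal
    exact Real.rpow_le_rpow hθ.le hz.le hq
  calc mN ρ N {z | θ < ∏ i, f (z i)}
      ≤ mN ρ N {z | ENNReal.ofReal (θ ^ q) ≤ ∏ i, ENNReal.ofReal (f (z i) ^ q)} :=
        measure_mono h1
    _ ≤ (∫⁻ z, ∏ i, ENNReal.ofReal (f (z i) ^ q) ∂(mN ρ N)) / ENNReal.ofReal (θ ^ q) :=
        meas_ge_le_lintegral_div hm.aemeasurable
          (by rw [Ne, ENNReal.ofReal_eq_zero, not_le]; exact hθq) ENNReal.ofReal_ne_top
    _ = (∫⁻ z, ENNReal.ofReal (f z ^ q) ∂(m1 ρ)) ^ N / ENNReal.ofReal (θ ^ q) := by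
        unfold mN
        rw [prod_lint (fun z => ENNReal.ofReal (f z ^ q))
          (ENNReal.measurable_ofReal.comp (hf.pow_const q)) N]
    _ ≤ (ENNReal.ofReal (Real.exp A)) ^ N / ENNReal.ofReal (θ ^ q) := by gcongr
    _ = ENNReal.ofReal (Real.exp (N * A) / θ ^ q) := by
        rw [← ENNReal.ofReal_pow (Real.exp_pos _).le, ← ENNReal.ofReal_div_of_pos hθq,
          ← Real.exp_nat_mul]

/-- the cell of a point -/
noncomputable def cell (N : ℕ) (w : ℂ) : ℤ × ℤ := (⌊2 * (N : ℝ) * w.re⌋, ⌊2 * (N : ℝ) * w.im⌋)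

lemma cell_dist {N : ℕ} (hN : 0 < N) {w w' : ℂ} (h : cell N w = cell N w') :
    ‖w - w'‖ ≤ 1 / (N : ℝ) := by
  have hN0 : (0 : ℝ) < N := by exact_mod_cast hN
  unfold cell at h
  rw [Prod.mk.injEq] at h
  have h1 := Int.abs_sub_lt_one_of_floor_eq_floor h.1
  have h2 := Int.abs_sub_lt_one_of_floor_eq_floor h.2
  have h3 := Complex.norm_le_abs_re_add_abs_im (w - w')
  rw [Complex.sub_re, Complex.sub_im] at h3
  have e1 : |2 * (N : ℝ) * w.re - 2 * N * w'.re| = 2 * N * |w.re - w'.re| := by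
    rw [← mul_sub, abs_mul, abs_of_nonneg (by positivity)]
  have e2 : |2 * (N : ℝ) * w.im - 2 * N * w'.im| = 2 * N * |w.im - w'.im| := by
    rw [← mul_sub, abs_mul, abs_of_nonneg (by positivity)]
  rw [e1] at h1
  rw [e2] at h2
  rw [le_div_iff₀ hN0]
  nlinarith

/-- the indices of the cells which meet a disc -/
noncomputable def idx (N : ℕ) (R : ℝ) : Finset (ℤ × ℤ) :=
  Finset.Icc (-((⌈2 * (N : ℝ) * R⌉₊ : ℤ) + 1)) ((⌈2 * (N : ℝ) * R⌉₊ : ℤ) + 1) ×ˢ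
    Finset.Icc (-((⌈2 * (N : ℝ) * R⌉₊ : ℤ) + 1)) ((⌈2 * (N : ℝ) * R⌉₊ : ℤ) + 1)

lemma floor_mem {N : ℕ} {R x : ℝ} (hx : |x| ≤ R) :
    ⌊2 * (N : ℝ) * x⌋ ∈
      Finset.Icc (-((⌈2 * (N : ℝ) * R⌉₊ : ℤ) + 1)) ((⌈2 * (N : ℝ) * R⌉₊ : ℤ) + 1) := by
  have h1 := Nat.le_ceil (2 * (N : ℝ) * R)
  have h2 := Int.floor_le (2 * (N : ℝ) * x)
  have h3 := Int.lt_floor_add_one (2 * (N : ℝ) * x)
  have h4 := abs_le.1 hx
  have hN : (0 : ℝ) ≤ N := Nat.cast_nonneg _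
  rw [Finset.mem_Icc]
  constructor
  · have : (-(((⌈2 * (N : ℝ) * R⌉₊ : ℤ) + 1 : ℤ) : ℝ)) - 1 < (⌊2 * (N : ℝ) * x⌋ : ℝ) := by
      push_cast
      nlinarith
    have h5 : -((⌈2 * (N : ℝ) * R⌉₊ : ℤ) + 1) - 1 < ⌊2 * (N : ℝ) * x⌋ := by
      exact_mod_cast this
    omega
  · have : (⌊2 * (N : ℝ) * x⌋ : ℝ) ≤ (((⌈2 * (N : ℝ) * R⌉₊ : ℤ) + 1 : ℤ) : ℝ) := by
      push_cast
      nlinarith
    exact_mod_cast this

lemma cell_mem {N : ℕ} {R : ℝ} {w : ℂ} (hw : ‖w‖ ≤ R) : cell N w ∈ idx N R := by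
  unfold cell idx
  rw [Finset.mem_product]
  exact ⟨floor_mem ((Complex.abs_re_le_norm w).trans hw),
    floor_mem ((Complex.abs_im_le_norm w).trans hw)⟩

lemma idx_card {N : ℕ} {R : ℝ} (hN : 1 ≤ N) (hR : 0 ≤ R) :
    ((idx N R).card : ℝ) ≤ (4 * R + 7) ^ 2 * (N : ℝ) ^ 2 := by
  have hN1 : (1 : ℝ) ≤ N := by exact_mod_cast hN
  unfold idx
  rw [Finset.card_product, Int.card_Icc]
  have e : (((⌈2 * (N : ℝ) * R⌉₊ : ℤ) + 1 + 1 - -((⌈2 * (N : ℝ) * R⌉₊ : ℤ) + 1)).toNat : ℝ) =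
      2 * (⌈2 * (N : ℝ) * R⌉₊ : ℝ) + 3 := by
    have h1 : ((⌈2 * (N : ℝ) * R⌉₊ : ℤ) + 1 + 1 - -((⌈2 * (N : ℝ) * R⌉₊ : ℤ) + 1)).toNat =
        2 * ⌈2 * (N : ℝ) * R⌉₊ + 3 := by omega
    rw [h1]
    push_cast
    ring
  rw [Nat.cast_mul, e]
  have h2 := Nat.ceil_lt_add_one (show 0 ≤ 2 * (N : ℝ) * R by positivity)
  have h3 : 2 * (⌈2 * (N : ℝ) * R⌉₊ : ℝ) + 3 ≤ (4 * R + 7) * N := by nlinarith
  have h4 : 0 ≤ 2 * (⌈2 * (N : ℝ) * R⌉₊ : ℝ) + 3 := by positivity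
  calc (2 * (⌈2 * (N : ℝ) * R⌉₊ : ℝ) + 3) * (2 * (⌈2 * (N : ℝ) * R⌉₊ : ℝ) + 3)
      ≤ ((4 * R + 7) * N) * ((4 * R + 7) * N) := mul_le_mul h3 h3 h4 (h4.trans h3)
    _ = _ := by ring

lemma rpow_low {θ q : ℝ} (hθ : 0 < θ) (hq0 : 0 ≤ q) (hq : q ≤ 1 / 2) :
    1 / θ ^ q ≤ 1 + θ ^ (-(1 / 2) : ℝ) := by
  have h0 : 0 ≤ θ ^ (-(1 / 2) : ℝ) := by positivity
  rcases le_total 1 θ with h | h
  · have h1 : 1 ≤ θ ^ q := Real.one_le_rpow h hq0
    have h2 : 1 / θ ^ q ≤ 1 := by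
      rw [div_le_one (by positivity)]
      exact h1
    linarith
  · rw [one_div, ← Real.rpow_neg hθ.le]
    have h1 : θ ^ (-q) ≤ θ ^ (-(1 / 2) : ℝ) :=
      Real.rpow_le_rpow_of_exponent_ge hθ h (by linarith)
    linarith

lemma log_le_sqrt {x : ℝ} (hx : 0 < x) : Real.log x ≤ 2 * Real.sqrt x := by
  have h1 := Real.log_le_sub_one_of_pos (Real.sqrt_pos.2 hx)
  have h2 : Real.log x = 2 * Real.log (Real.sqrt x) := by
    rw [Real.log_sqrt hx.le]
    ring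
  rw [h2]
  linarith

lemma hN_sq {K : ℝ} {N : ℕ} (hn : 1 ≤ N) : (N : ℝ) * hN K N ^ 2 = K ^ 2 * Real.log N := by
  have hN1 : (1 : ℝ) ≤ N := by exact_mod_cast hn
  have h0 : 0 ≤ Real.log N / N := div_nonneg (Real.log_nonneg hN1) (by linarith)
  unfold Pool.Agent.W751.RR.hN
  rw [mul_pow, Real.sq_sqrt h0]
  field_simp

lemma hN_four {K : ℝ} {N : ℕ} (hn : 1 ≤ N) : (N : ℝ) * hN K N ^ 4 ≤ 4 * K ^ 4 := by
  have hN1 : (1 : ℝ) ≤ N := by exact_mod_cast hn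
  have hN0 : (0 : ℝ) < N := by linarith
  have h0 : 0 ≤ Real.log N := Real.log_nonneg hN1
  have h1 := hN_sq (K := K) hn
  have h2 := log_le_sqrt hN0
  have h3 : Real.log N ^ 2 ≤ 4 * N := by
    calc Real.log N ^ 2 ≤ (2 * Real.sqrt N) ^ 2 := pow_le_pow_left₀ h0 h2 2
      _ = 4 * N := by rw [mul_pow, Real.sq_sqrt hN0.le]; ring
  have h4 : (N : ℝ) * ((N : ℝ) * hN K N ^ 4) ≤ N * (4 * K ^ 4) := by
    calc (N : ℝ) * ((N : ℝ) * hN K N ^ 4) = ((N : ℝ) * hN K N ^ 2) ^ 2 := by ring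
      _ = K ^ 4 * Real.log N ^ 2 := by rw [h1]; ring
      _ ≤ K ^ 4 * (4 * N) := by gcongr
      _ = _ := by ring
  exact le_of_mul_le_mul_left h4 hN0

theorem ev1 : S_EV1 := by
  intro hM ρ c θ hρ hc hθ
  obtain ⟨C1, hC1, hmom⟩ := hM ρ (ρ + 3) hρ
  have := prob hρ
  refine ⟨Real.sqrt (12 * C1) / c + 1, by positivity, fun K hK => ?_⟩
  have hK0 : 0 < K := lt_of_lt_of_le (by positivity) hK
  have hKc : 12 * C1 ≤ (K * c) ^ 2 := by
    have h1 : Real.sqrt (12 * C1) ≤ K * c := by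
      have h2 : Real.sqrt (12 * C1) / c ≤ K := by linarith
      exact (div_le_iff₀ hc).1 h2
    calc 12 * C1 = Real.sqrt (12 * C1) ^ 2 := (Real.sq_sqrt (by positivity)).symm
      _ ≤ (K * c) ^ 2 := pow_le_pow_left₀ (Real.sqrt_nonneg _) h1 2
  set Θ := 1 + θ ^ (-(1 / 2) : ℝ) with hΘ
  have hΘ0 : 0 < Θ := by positivity
  set C2 := (4 * (ρ + 3) + 7) ^ 2 * (Θ * Real.exp (C1 / 2)) with hC2
  have hC2p : 0 < C2 := by positivity
  refine ⟨C2 + 4 * K ^ 4 * c ^ 4 / C1 ^ 4, by positivity, fun N hN2 => ?_⟩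
  have hN1 : 1 ≤ N := by omega
  have hNr : (1 : ℝ) ≤ N := by exact_mod_cast hN1
  have hN0 : (0 : ℝ) < N := by linarith
  have hlog : 0 ≤ Real.log N := Real.log_nonneg hNr
  set h := hN K N with hh
  have hh0 : 0 ≤ h := by
    rw [hh]
    unfold Pool.Agent.W751.RR.hN
    positivity
  have hprob : IsProbabilityMeasure (mN ρ N) := by
    unfold mN
    infer_instance
  by_cases hq2 : c * h / (2 * C1) ≤ 1 / 2
  · set q := c * h / (2 * C1) with hq
    have hq0 : 0 ≤ q := by positivity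
    -- one cell
    have hcell : ∀ k : ℤ × ℤ, mN ρ N {z | ∃ w : ℂ, cell N w = k ∧ ‖w‖ ≤ ρ + 3 ∧
        U ρ ‖w‖ ≤ -(c * h) ∧ θ < ‖(P z).eval w‖} ≤
        ENNReal.ofReal (Θ * Real.exp (C1 / 2) / N ^ 3) := by
      intro k
      by_cases hk : ∃ w₀ : ℂ, cell N w₀ = k ∧ ‖w₀‖ ≤ ρ + 3 ∧ U ρ ‖w₀‖ ≤ -(c * h)
      · obtain ⟨w₀, hw₀k, hw₀, hU⟩ := hk
        have hsub : {z : Fin N → ℂ | ∃ w : ℂ, cell N w = k ∧ ‖w‖ ≤ ρ + 3 ∧
            U ρ ‖w‖ ≤ -(c * h) ∧ θ < ‖(P z).eval w‖} ⊆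
            {z | θ < ∏ i, (fun u : ℂ => ‖w₀ - u‖ + 1 / (N : ℝ)) (z i)} := by
          rintro z ⟨w, hwk, _, _, hw⟩
          simp only [Set.mem_ofPred_eq]
          rw [eval_norm] at hw
          refine hw.trans_le ?_
          apply Finset.prod_le_prod
          · intro i _
            exact norm_nonneg _
          · intro i _
            have h1 := cell_dist (by omega : 0 < N) (hwk.trans hw₀k.symm)
            have h2 := norm_add_le (w₀ - z i) (w - w₀)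
            have h3 : w₀ - z i + (w - w₀) = w - z i := by ring
            rw [h3] at h2
            linarith
        refine (measure_mono hsub).trans ?_
        have h1 := (hmom w₀ hw₀ q hq0 hq2).1 (1 / N) (by positivity)
          (by rw [div_le_one hN0]; exact hNr)
        refine (markov hρ (fun u : ℂ => ‖w₀ - u‖ + 1 / (N : ℝ)) (by fun_prop)
          (fun z => by positivity) hθ hq0 h1).trans ?_
        apply ENNReal.ofReal_le_ofReal
        have h2 := rpow_low hθ hq0 hq2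
        have h3 : (N : ℝ) * (q * U ρ ‖w₀‖ + C1 * q * (1 / N) + C1 * q ^ 2) ≤
            C1 / 2 - 3 * Real.log N := by
          have e1 : (N : ℝ) * (q * U ρ ‖w₀‖ + C1 * q * (1 / N) + C1 * q ^ 2) =
              N * q * U ρ ‖w₀‖ + C1 * q + C1 * (N * q ^ 2) := by field_simp
          have e2 : N * q * U ρ ‖w₀‖ ≤ N * q * (-(c * h)) :=
            mul_le_mul_of_nonneg_left hU (by positivity)
          have e3 : (N : ℝ) * h ^ 2 = K ^ 2 * Real.log N := hN_sq hN1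
          have e4 : N * q * (-(c * h)) + C1 * (N * q ^ 2) = -(c ^ 2 * (N * h ^ 2) / (4 * C1)) := by
            rw [hq]
            field_simp
            ring
          have e5 : C1 * q ≤ C1 / 2 := by nlinarith
          have e6 : 3 * Real.log N ≤ c ^ 2 * (N * h ^ 2) / (4 * C1) := by
            rw [e3, le_div_iff₀ (by positivity)]
            nlinarith
          rw [e1]
          linarith
        calc Real.exp (N * (q * U ρ ‖w₀‖ + C1 * q * (1 / N) + C1 * q ^ 2)) / θ ^ q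
            = Real.exp (N * (q * U ρ ‖w₀‖ + C1 * q * (1 / N) + C1 * q ^ 2)) * (1 / θ ^ q) := by
              ring
          _ ≤ Real.exp (C1 / 2 - 3 * Real.log N) * Θ := by
              apply mul_le_mul (Real.exp_le_exp.2 h3) h2 (by positivity) (by positivity)
          _ = Θ * Real.exp (C1 / 2) / N ^ 3 := by
              rw [Real.exp_sub, show 3 * Real.log N = ((3 : ℕ) : ℝ) * Real.log N by norm_num,
                Real.exp_nat_mul, Real.exp_log hN0]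
              ring
      · have hempty : {z : Fin N → ℂ | ∃ w : ℂ, cell N w = k ∧ ‖w‖ ≤ ρ + 3 ∧
            U ρ ‖w‖ ≤ -(c * h) ∧ θ < ‖(P z).eval w‖} = ∅ := by
          ext z
          simp only [Set.mem_ofPred_eq, Set.mem_empty_iff_false, iff_false]
          rintro ⟨w, h1, h2, h3, _⟩
          exact hk ⟨w, h1, h2, h3⟩
        rw [hempty, measure_empty]
        exact zero_le
    have hsub : {z : Fin N → ℂ | ∃ w : ℂ, ‖w‖ ≤ ρ + 3 ∧ U ρ ‖w‖ ≤ -(c * h) ∧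
        θ < ‖(P z).eval w‖} ⊆ ⋃ k ∈ idx N (ρ + 3), {z | ∃ w : ℂ, cell N w = k ∧ ‖w‖ ≤ ρ + 3 ∧
        U ρ ‖w‖ ≤ -(c * h) ∧ θ < ‖(P z).eval w‖} := by
      rintro z ⟨w, h1, h2, h3⟩
      rw [Set.mem_iUnion₂]
      exact ⟨cell N w, cell_mem h1, w, rfl, h1, h2, h3⟩
    refine (measure_mono hsub).trans ((measure_biUnion_finset_le _ _).trans ?_)
    refine (Finset.sum_le_sum fun k _ => hcell k).trans ?_
    rw [Finset.sum_const, nsmul_eq_mul, ← ENNReal.ofReal_natCast, ← ENNReal.ofReal_mul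
      (by positivity)]
    apply ENNReal.ofReal_le_ofReal
    have h1 := idx_card (N := N) (R := ρ + 3) hN1 (by linarith)
    calc ((idx N (ρ + 3)).card : ℝ) * (Θ * Real.exp (C1 / 2) / N ^ 3)
        ≤ ((4 * (ρ + 3) + 7) ^ 2 * (N : ℝ) ^ 2) * (Θ * Real.exp (C1 / 2) / N ^ 3) := by gcongr
      _ = C2 / N := by
          rw [hC2]
          field_simp
      _ ≤ (C2 + 4 * K ^ 4 * c ^ 4 / C1 ^ 4) / N := by
          gcongr
          have : 0 ≤ 4 * K ^ 4 * c ^ 4 / C1 ^ 4 := by positivity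
          linarith
  · push Not at hq2
    refine prob_le_one.trans ?_
    rw [← ENNReal.ofReal_one]
    apply ENNReal.ofReal_le_ofReal
    rw [le_div_iff₀ hN0, one_mul]
    have h1 : C1 < c * h := by
      rw [lt_div_iff₀ (by positivity)] at hq2
      linarith
    have h2 : C1 ^ 4 ≤ (c * h) ^ 4 := pow_le_pow_left₀ hC1.le h1.le 4
    have h3 := hN_four (K := K) hN1
    have h4 : (N : ℝ) ≤ 4 * K ^ 4 * c ^ 4 / C1 ^ 4 := by
      rw [le_div_iff₀ (by positivity)]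
      calc (N : ℝ) * C1 ^ 4 ≤ N * (c * h) ^ 4 := by gcongr
        _ = (N * h ^ 4) * c ^ 4 := by ring
        _ ≤ (4 * K ^ 4) * c ^ 4 := by gcongr
    linarith

end Pool.Agent.W571.RR.EV1
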