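import Pool.Agent.W751.RR.Stm

/-! RR-MOM: exponential moments. -/

set_option autoImplicit false

open MeasureTheory

namespace Pool.Agent.W571.RR.Mom

open Pool.Agent.W751.RR

lemma exp_neg_le {y : ℝ} (hy : 0 ≤ y) : Real.exp (-y) ≤ 1 - y + y ^ 2 / 2 := by
  have h1 := Real.quadratic_le_exp_of_nonneg hy
  have h2 : 0 < 1 + y + y ^ 2 / 2 := by positivity
  rw [Real.exp_neg]
  have h3 : (Real.exp y)⁻¹ ≤ (1 + y + y ^ 2 / 2)⁻¹ := inv_anti₀ h2 h1
  refine h3.trans ?_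
  rw [inv_le_iff_one_le_mul₀ h2]
  have h4 : (1 - y + y ^ 2 / 2) * (1 + y + y ^ 2 / 2) = 1 + y ^ 4 / 4 := by ring
  rw [h4]
  have : 0 ≤ y ^ 4 := by positivity
  linarith

lemma exp_le (x : ℝ) : Real.exp x ≤ 1 + x + x ^ 2 * Real.exp |x| := by
  rcases le_total 0 x with h | h
  · rw [abs_of_nonneg h]
    have h1 := Real.add_one_le_exp (-x)
    have h2 : Real.exp (-x) * Real.exp x = 1 := by rw [← Real.exp_add]; simp
    have h3 := Real.exp_pos x
    have h4 : Real.exp x - 1 ≤ x * Real.exp x := by nlinarith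
    have h5 : x * (Real.exp x - 1) ≤ x * (x * Real.exp x) := mul_le_mul_of_nonneg_left h4 h
    nlinarith
  · rw [abs_of_nonpos h]
    have h1 := exp_neg_le (y := -x) (by linarith)
    rw [neg_neg] at h1
    have h2 : (1 : ℝ) ≤ Real.exp (-x) := Real.one_le_exp (by linarith)
    nlinarith [sq_nonneg x]

/-- the kernel -/
noncomputable def Kt (t : ℝ) : ℝ :=
  (Real.log t) ^ 2 * (t ^ (1 / 2 : ℝ) + t ^ (-(1 / 2) : ℝ) + 1)

lemma Kt_nonneg {t : ℝ} (ht : 0 ≤ t) : 0 ≤ Kt t := by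
  unfold Kt
  positivity

lemma kern {t q : ℝ} (ht : 0 < t) (hq0 : 0 ≤ q) (hq : q ≤ 1 / 2) :
    Real.exp |q * Real.log t| ≤ t ^ (1 / 2 : ℝ) + t ^ (-(1 / 2) : ℝ) + 1 := by
  have h1 : 0 ≤ t ^ (1 / 2 : ℝ) := by positivity
  have h2 : 0 ≤ t ^ (-(1 / 2) : ℝ) := by positivity
  rcases le_total 1 t with h | h
  · have h3 : 0 ≤ Real.log t := Real.log_nonneg h
    rw [abs_of_nonneg (by positivity)]
    have h4 : Real.exp (q * Real.log t) ≤ t ^ (1 / 2 : ℝ) := by
      rw [Real.rpow_def_of_pos ht]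
      apply Real.exp_le_exp.2
      nlinarith
    linarith
  · have h3 : Real.log t ≤ 0 := Real.log_nonpos ht.le h
    rw [abs_of_nonpos (mul_nonpos_of_nonneg_of_nonpos hq0 h3)]
    have h4 : Real.exp (-(q * Real.log t)) ≤ t ^ (-(1 / 2) : ℝ) := by
      rw [Real.rpow_def_of_pos ht]
      apply Real.exp_le_exp.2
      nlinarith
    linarith

lemma exp_log_le {t q : ℝ} (ht : 0 < t) (hq0 : 0 ≤ q) (hq : q ≤ 1 / 2) :
    (q * Real.log t) ^ 2 * Real.exp |q * Real.log t| ≤ q ^ 2 * Kt t := by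
  have h := kern ht hq0 hq
  calc (q * Real.log t) ^ 2 * Real.exp |q * Real.log t|
      ≤ (q * Real.log t) ^ 2 * (t ^ (1 / 2 : ℝ) + t ^ (-(1 / 2) : ℝ) + 1) :=
        mul_le_mul_of_nonneg_left h (sq_nonneg _)
    _ = q ^ 2 * Kt t := by unfold Kt; ring

lemma low {t q : ℝ} (ht : 0 < t) (hq0 : 0 ≤ q) (hq : q ≤ 1 / 2) :
    t ^ (-q) ≤ 1 + -q * Real.log t + q ^ 2 * Kt t := by
  have h1 := exp_le (-(q * Real.log t))
  have h2 := exp_log_le ht hq0 hq
  rw [abs_neg, neg_sq] at h1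
  rw [Real.rpow_def_of_pos ht, show Real.log t * -q = -(q * Real.log t) by ring]
  linarith

lemma K_shift {t η T : ℝ} (ht : 0 < t) (hη : 0 ≤ η) (hT : t + η ≤ T) (hT1 : 1 ≤ T) :
    Kt (t + η) ≤ 2 * Kt t + T ^ 2 * (T + 2) := by
  have hK := Kt_nonneg ht.le
  rcases le_total (t + η) 1 with h | h
  · have h1 : Real.log (t + η) ≤ 0 := Real.log_nonpos (by positivity) h
    have h2 : Real.log t ≤ Real.log (t + η) := Real.log_le_log ht (by linarith)
    have h3 : Real.log (t + η) ^ 2 ≤ Real.log t ^ 2 := by nlinarith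
    have h4 : (t + η) ^ (1 / 2 : ℝ) ≤ 1 := Real.rpow_le_one (by positivity) h (by norm_num)
    have h5 : (t + η) ^ (-(1 / 2) : ℝ) ≤ t ^ (-(1 / 2) : ℝ) :=
      Real.rpow_le_rpow_of_nonpos ht (by linarith) (by norm_num)
    have h6 : 0 ≤ t ^ (1 / 2 : ℝ) := by positivity
    have h7 : 0 ≤ t ^ (-(1 / 2) : ℝ) := by positivity
    have h8 : Kt (t + η) ≤ 2 * Kt t := by
      unfold Kt
      calc Real.log (t + η) ^ 2 * ((t + η) ^ (1 / 2 : ℝ) + (t + η) ^ (-(1 / 2) : ℝ) + 1)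
          ≤ Real.log t ^ 2 * (2 * (t ^ (1 / 2 : ℝ) + t ^ (-(1 / 2) : ℝ) + 1)) := by
            apply mul_le_mul h3 _ (by positivity) (by positivity)
            linarith
        _ = _ := by ring
    have h9 : 0 ≤ T ^ 2 * (T + 2) := by positivity
    linarith
  · have h1 : 0 ≤ Real.log (t + η) := Real.log_nonneg h
    have h2 : Real.log (t + η) ≤ T := by
      have := Real.log_le_sub_one_of_pos (show 0 < t + η by positivity)
      linarith
    have h3 : Real.log (t + η) ^ 2 ≤ T ^ 2 := by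
      apply pow_le_pow_left₀ h1 h2
    have h4 : (t + η) ^ (1 / 2 : ℝ) ≤ T := by
      have := Real.rpow_le_rpow_of_exponent_le h (show (1 / 2 : ℝ) ≤ 1 by norm_num)
      rw [Real.rpow_one] at this
      linarith
    have h5 : (t + η) ^ (-(1 / 2) : ℝ) ≤ 1 :=
      Real.rpow_le_one_of_one_le_of_nonpos h (by norm_num)
    have h6 : 0 ≤ (t + η) ^ (1 / 2 : ℝ) := by positivity
    have h7 : 0 ≤ (t + η) ^ (-(1 / 2) : ℝ) := by positivity
    have h8 : Kt (t + η) ≤ T ^ 2 * (T + 2) := by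
      unfold Kt
      apply mul_le_mul h3 _ (by positivity) (by positivity)
      linarith
    linarith

lemma up {t η q T : ℝ} (ht : 0 < t) (hη : 0 ≤ η) (hT : t + η ≤ T) (hT1 : 1 ≤ T) (hq0 : 0 ≤ q)
    (hq : q ≤ 1 / 2) :
    (t + η) ^ q ≤ 1 + q * Real.log t + q * η * t⁻¹ + q ^ 2 * (2 * Kt t + T ^ 2 * (T + 2)) := by
  have hs : 0 < t + η := by positivity
  have h1 := exp_le (q * Real.log (t + η))
  have h2 := exp_log_le hs hq0 hq
  have h3 := K_shift ht hη hT hT1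
  have h4 : Real.log (t + η) ≤ Real.log t + η * t⁻¹ := by
    have h5 := Real.log_le_sub_one_of_pos (show 0 < (t + η) / t by positivity)
    rw [Real.log_div hs.ne' ht.ne'] at h5
    have h6 : (t + η) / t - 1 = η * t⁻¹ := by field_simp; ring
    rw [h6] at h5
    linarith
  have h5 : q ^ 2 * Kt (t + η) ≤ q ^ 2 * (2 * Kt t + T ^ 2 * (T + 2)) :=
    mul_le_mul_of_nonneg_left h3 (sq_nonneg _)
  have h6 : q * Real.log (t + η) ≤ q * (Real.log t + η * t⁻¹) :=
    mul_le_mul_of_nonneg_left h4 hq0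
  rw [Real.rpow_def_of_pos hs, show Real.log (t + η) * q = q * Real.log (t + η) by ring]
  nlinarith

/-! ### Measure theory -/

lemma integ_of {μ : Measure ℂ} {f : ℂ → ℝ} (hf : Measurable f) (h0 : ∀ z, 0 ≤ f z) {C : ℝ}
    (hC : 0 ≤ C) (h : ∫⁻ z, ENNReal.ofReal (f z) ∂μ ≤ ENNReal.ofReal C) :
    Integrable f μ ∧ ∫ z, f z ∂μ ≤ C := by
  constructor
  · refine ⟨hf.aestronglyMeasurable, ?_⟩
    rw [hasFiniteIntegral_iff_ofReal (Filter.Eventually.of_forall h0)]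
    exact h.trans_lt ENNReal.ofReal_lt_top
  · rw [integral_eq_lintegral_of_nonneg_ae (Filter.Eventually.of_forall h0)
      hf.aestronglyMeasurable]
    exact ENNReal.toReal_le_of_le_ofReal hC h

lemma fin_le {μ : Measure ℂ} {f g : ℂ → ℝ} (hg : Integrable g μ) (hfg : ∀ᵐ z ∂μ, f z ≤ g z)
    (h0 : ∀ᵐ z ∂μ, 0 ≤ f z) {A : ℝ} (hA : ∫ z, g z ∂μ ≤ A) :
    ∫⁻ z, ENNReal.ofReal (f z) ∂μ ≤ ENNReal.ofReal A := by
  have hg0 : 0 ≤ᵐ[μ] g := by
    filter_upwards [hfg, h0] with z h1 h2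
    exact h2.trans h1
  calc ∫⁻ z, ENNReal.ofReal (f z) ∂μ ≤ ∫⁻ z, ENNReal.ofReal (g z) ∂μ := by
        apply lintegral_mono_ae
        filter_upwards [hfg] with z hz
        exact ENNReal.ofReal_le_ofReal hz
    _ = ENNReal.ofReal (∫ z, g z ∂μ) := (ofReal_integral_eq_lintegral_ofReal hg hg0).symm
    _ ≤ ENNReal.ofReal A := ENNReal.ofReal_le_ofReal hA

lemma prob {ρ : ℝ} (hρ : 0 < ρ) : IsProbabilityMeasure (m1 ρ) := by
  constructor
  unfold m1
  rw [Measure.smul_apply, Measure.restrict_apply MeasurableSet.univ, Set.univ_inter, smul_eq_mul]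
  apply ENNReal.inv_mul_cancel
  · exact (Metric.measure_closedBall_pos volume 0 hρ).ne'
  · exact measure_closedBall_lt_top.ne

lemma ae_m1 (ρ : ℝ) {p : ℂ → Prop}
    (h : ∀ᵐ z ∂(volume.restrict (Metric.closedBall (0 : ℂ) ρ)), p z) : ∀ᵐ z ∂(m1 ρ), p z := by
  unfold m1
  exact Measure.ae_smul_measure h _

lemma ae_le (ρ : ℝ) : ∀ᵐ z ∂(m1 ρ), ‖z‖ ≤ ρ := by
  apply ae_m1
  filter_upwards [ae_restrict_mem measurableSet_closedBall] with z hz
  simpa using hz

lemma ae_ne (ρ : ℝ) (w : ℂ) : ∀ᵐ z ∂(m1 ρ), 0 < ‖w - z‖ := by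
  apply ae_m1
  apply ae_restrict_of_ae
  have h : ∀ᵐ z : ℂ, z ≠ w := by
    rw [ae_iff]
    simp
  filter_upwards [h] with z hz
  rw [norm_pos_iff, sub_ne_zero]
  exact hz.symm

lemma comb {μ : Measure ℂ} [IsProbabilityMeasure μ] {f g h : ℂ → ℝ} (hf : Integrable f μ)
    (hg : Integrable g μ) (hh : Integrable h μ) (a b c d : ℝ) :
    ∫ z, (1 + a * f z + b * g z + c * (2 * h z + d)) ∂μ =
      1 + a * (∫ z, f z ∂μ) + b * (∫ z, g z ∂μ) + c * (2 * (∫ z, h z ∂μ) + d) := by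
  have i0 : Integrable (fun _ : ℂ => (1 : ℝ)) μ := integrable_const _
  have id : Integrable (fun _ : ℂ => d) μ := integrable_const _
  have i1 : Integrable (fun z => a * f z) μ := hf.const_mul a
  have i2 : Integrable (fun z => b * g z) μ := hg.const_mul b
  have i3 : Integrable (fun z => 2 * h z) μ := hh.const_mul 2
  have i4 : Integrable (fun z => 2 * h z + d) μ := i3.add id
  have i5 : Integrable (fun z => c * (2 * h z + d)) μ := i4.const_mul c
  have i6 : Integrable (fun z => 1 + a * f z) μ := i0.add i1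
  have i7 : Integrable (fun z => 1 + a * f z + b * g z) μ := i6.add i2
  rw [integral_add i7 i5, integral_add i6 i2, integral_add i0 i1, integral_const_mul,
    integral_const_mul, integral_const_mul, integral_add i3 id, integral_const_mul]
  simp

lemma comb2 {μ : Measure ℂ} [IsProbabilityMeasure μ] {f h : ℂ → ℝ} (hf : Integrable f μ)
    (hh : Integrable h μ) (a c : ℝ) :
    ∫ z, (1 + a * f z + c * h z) ∂μ = 1 + a * (∫ z, f z ∂μ) + c * (∫ z, h z ∂μ) := by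
  have i0 : Integrable (fun _ : ℂ => (1 : ℝ)) μ := integrable_const _
  have i1 : Integrable (fun z => a * f z) μ := hf.const_mul a
  have i5 : Integrable (fun z => c * h z) μ := hh.const_mul c
  have i6 : Integrable (fun z => 1 + a * f z) μ := i0.add i1
  rw [integral_add i6 i5, integral_add i0 i1, integral_const_mul, integral_const_mul]
  simp

lemma meas_K (w : ℂ) : Measurable (fun z : ℂ => Kt ‖w - z‖) := by
  unfold Kt
  fun_prop

theorem mom : S_MOM := by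
  intro hA hB hD ρ B hρ
  obtain ⟨CB, hCB, hB1, _⟩ := hB ρ hρ
  obtain ⟨CD, hCD, hD1⟩ := hD ρ |B| hρ
  haveI := prob hρ
  set T := |B| + ρ + 1 with hT
  have hT1 : 1 ≤ T := by
    have := abs_nonneg B
    linarith
  have hTp : 0 < T := by linarith
  refine ⟨CB + 2 * CD + T ^ 2 * (T + 2), by positivity, fun w hw q hq0 hq => ?_⟩
  obtain ⟨hlog, hUl⟩ := hA ρ hρ w
  have hwB : ‖w‖ ≤ |B| := hw.trans (le_abs_self B)
  obtain ⟨hKi, hKl⟩ := integ_of (meas_K w) (fun z => Kt_nonneg (norm_nonneg _)) hCD.le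
    (hD1 w hwB)
  obtain ⟨hRi, hRl⟩ := integ_of (μ := m1 ρ) (f := fun z : ℂ => ‖w - z‖⁻¹) (by fun_prop)
    (fun z => by positivity) hCB.le (hB1 w)
  constructor
  · intro η hη0 hη1
    have hg : Integrable (fun z => 1 + q * Real.log ‖w - z‖ + q * η * ‖w - z‖⁻¹ +
        q ^ 2 * (2 * Kt ‖w - z‖ + T ^ 2 * (T + 2))) (m1 ρ) :=
      (((integrable_const _).add (hlog.const_mul q)).add (hRi.const_mul (q * η))).add
        (((hKi.const_mul 2).add (integrable_const _)).const_mul _)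
    apply fin_le hg
    · filter_upwards [ae_ne ρ w, ae_le ρ] with z hz hz2
      apply up hz hη0 _ hT1 hq0 hq
      have := norm_sub_le w z
      linarith
    · exact Filter.Eventually.of_forall fun z => by positivity
    · have e : ∫ z, (1 + q * Real.log ‖w - z‖ + q * η * ‖w - z‖⁻¹ +
          q ^ 2 * (2 * Kt ‖w - z‖ + T ^ 2 * (T + 2))) ∂(m1 ρ) =
          1 + q * U ρ ‖w‖ + q * η * (∫ z, ‖w - z‖⁻¹ ∂(m1 ρ)) +
          q ^ 2 * (2 * (∫ z, Kt ‖w - z‖ ∂(m1 ρ)) + T ^ 2 * (T + 2)) := by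
        rw [comb hlog hRi hKi, hUl]
      rw [e]
      have h1 : q * η * (∫ z, ‖w - z‖⁻¹ ∂(m1 ρ)) ≤ q * η * CB :=
        mul_le_mul_of_nonneg_left hRl (by positivity)
      have h2 : q ^ 2 * (2 * (∫ z, Kt ‖w - z‖ ∂(m1 ρ)) + T ^ 2 * (T + 2)) ≤
          q ^ 2 * (2 * CD + T ^ 2 * (T + 2)) := by
        apply mul_le_mul_of_nonneg_left _ (sq_nonneg _)
        linarith
      have h3 := Real.add_one_le_exp (q * U ρ ‖w‖ + (CB + 2 * CD + T ^ 2 * (T + 2)) * q * η +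
        (CB + 2 * CD + T ^ 2 * (T + 2)) * q ^ 2)
      have h4 : 0 ≤ (2 * CD + T ^ 2 * (T + 2)) * (q * η) := by positivity
      have h5 : 0 ≤ CB * q ^ 2 := by positivity
      nlinarith
  · have hg : Integrable (fun z => 1 + -q * Real.log ‖w - z‖ + q ^ 2 * Kt ‖w - z‖) (m1 ρ) :=
      ((integrable_const _).add (hlog.const_mul (-q))).add (hKi.const_mul (q ^ 2))
    apply fin_le hg
    · filter_upwards [ae_ne ρ w] with z hz
      exact low hz hq0 hq
    · exact Filter.Eventually.of_forall fun z => by positivity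
    · have e : ∫ z, (1 + -q * Real.log ‖w - z‖ + q ^ 2 * Kt ‖w - z‖) ∂(m1 ρ) =
          1 + -q * U ρ ‖w‖ + q ^ 2 * (∫ z, Kt ‖w - z‖ ∂(m1 ρ)) := by
        rw [comb2 hlog hKi, hUl]
      rw [e]
      have h2 : q ^ 2 * (∫ z, Kt ‖w - z‖ ∂(m1 ρ)) ≤ q ^ 2 * CD :=
        mul_le_mul_of_nonneg_left hKl (sq_nonneg _)
      have h3 := Real.add_one_le_exp (-q * U ρ ‖w‖ + (CB + 2 * CD + T ^ 2 * (T + 2)) * q ^ 2)
      have h5 : 0 ≤ (CB + CD + T ^ 2 * (T + 2)) * q ^ 2 := by positivity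
      nlinarith

end Pool.Agent.W571.RR.Mom
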