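import Pool.Agent.W751.RR.Stm

/-! RR-UU: elementary properties of the potential of the disc. -/

set_option autoImplicit false

namespace Pool.Agent.W571.RR

open Pool.Agent.W751.RR

/-- the normalised potential in the logarithmic scale -/
noncomputable def ph (s : ℝ) : ℝ := if s ≤ 0 then (Real.exp (2 * s) - 1) / 2 else s

/-- its derivative -/
noncomputable def dph (s : ℝ) : ℝ := Real.exp (2 * min s 0)

lemma ph_nonpos {s : ℝ} (h : s ≤ 0) : ph s = (Real.exp (2 * s) - 1) / 2 := if_pos h

lemma ph_nonneg {s : ℝ} (h : 0 ≤ s) : ph s = s := by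
  unfold ph
  split_ifs with h1
  · have : s = 0 := le_antisymm h1 h
    subst this
    simp
  · rfl

lemma exp_neg_le {y : ℝ} (hy : 0 ≤ y) : Real.exp (-y) ≤ 1 - y + y ^ 2 / 2 := by
  have h1 := Real.quadratic_le_exp_of_nonneg hy
  have h2 : 0 < 1 + y + y ^ 2 / 2 := by positivity
  rw [Real.exp_neg]
  have h3 : (Real.exp y)⁻¹ ≤ (1 + y + y ^ 2 / 2)⁻¹ := inv_anti₀ h2 h1
  refine h3.trans ?_
  rw [inv_le_iff_one_le_mul₀ h2]
  have h4 : (1 - y + y ^ 2 / 2) * (1 + y + y ^ 2 / 2) = 1 + y ^ 4 / 4 := by ring
  rw [h4]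
  have : 0 ≤ y ^ 4 := by positivity
  linarith

lemma pade {a : ℝ} (ha : 0 ≤ a) : 1 - a ≤ (1 + a) * Real.exp (-(2 * a)) := by
  by_cases h : a < 1
  · have h1 : 0 < 1 - a := by linarith
    have h2 := Real.le_log_one_add_of_nonneg (x := 2 * a / (1 - a)) (by positivity)
    have h3 : 2 * (2 * a / (1 - a)) / (2 * a / (1 - a) + 2) = 2 * a := by
      have : 2 * a / (1 - a) + 2 = 2 / (1 - a) := by field_simp; ring
      rw [this]
      field_simp
    have h4 : 1 + 2 * a / (1 - a) = (1 + a) / (1 - a) := by field_simp; ring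
    rw [h3, h4] at h2
    have h5 : Real.exp (2 * a) ≤ (1 + a) / (1 - a) := by
      rw [← Real.exp_log (show 0 < (1 + a) / (1 - a) by positivity)]
      exact Real.exp_le_exp.2 h2
    rw [le_div_iff₀ h1] at h5
    rw [Real.exp_neg, ← div_eq_mul_inv, le_div_iff₀ (Real.exp_pos _)]
    linarith
  · push Not at h
    have : 0 ≤ (1 + a) * Real.exp (-(2 * a)) := by positivity
    linarith

lemma tangent (a b : ℝ) : ph a + dph a * (b - a) ≤ ph b := by
  have key : ∀ a b : ℝ, (Real.exp (2 * a) - 1) / 2 + Real.exp (2 * a) * (b - a) ≤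
      (Real.exp (2 * b) - 1) / 2 := by
    intro a b
    have h1 := Real.add_one_le_exp (2 * (b - a))
    have h2 : Real.exp (2 * b) = Real.exp (2 * a) * Real.exp (2 * (b - a)) := by
      rw [← Real.exp_add]
      congr 1
      ring
    rw [h2]
    nlinarith [Real.exp_pos (2 * a)]
  rcases le_total a 0 with ha | ha
  · have hd : dph a = Real.exp (2 * a) := by unfold dph; rw [min_eq_left ha]
    rw [ph_nonpos ha, hd]
    rcases le_total b 0 with hb | hb
    · rw [ph_nonpos hb]
      exact key a b
    · rw [ph_nonneg hb]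
      have h1 := key a 0
      have h2 : Real.exp (2 * a) ≤ 1 := Real.exp_le_one_iff.2 (by linarith)
      simp only [mul_zero, Real.exp_zero] at h1
      nlinarith
  · have hd : dph a = 1 := by unfold dph; rw [min_eq_right ha]; simp
    rw [ph_nonneg ha, hd]
    rcases le_total b 0 with hb | hb
    · rw [ph_nonpos hb]
      have h1 := Real.add_one_le_exp (2 * b)
      linarith
    · rw [ph_nonneg hb]
      linarith

lemma dph_mono {a b : ℝ} (h : a ≤ b) : dph a ≤ dph b := by
  unfold dph
  apply Real.exp_le_exp.2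
  have := min_le_min_right 0 h
  linarith

lemma dph_pos (a : ℝ) : 0 < dph a := Real.exp_pos _

lemma second (s h : ℝ) (h0 : 0 ≤ h) (h1 : h ≤ 1) :
    ph (s + h) + ph (s - h) - 2 * ph s ≤ 2 * h ^ 2 := by
  rcases le_total (s + h) 0 with hA | hA
  · rw [ph_nonpos hA, ph_nonpos (by linarith), ph_nonpos (by linarith)]
    have e1 : Real.exp (2 * (s + h)) ≤ 1 := Real.exp_le_one_iff.2 (by linarith)
    have e2 : Real.exp (2 * s) = Real.exp (2 * (s + h)) * Real.exp (-(2 * h)) := by
      rw [← Real.exp_add]; congr 1; ring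
    have e3 : Real.exp (2 * (s - h)) =
        Real.exp (2 * (s + h)) * Real.exp (-(2 * h)) * Real.exp (-(2 * h)) := by
      rw [← Real.exp_add, ← Real.exp_add]; congr 1; ring
    have e4 := Real.add_one_le_exp (-(2 * h))
    have e5 : Real.exp (-(2 * h)) ≤ 1 := Real.exp_le_one_iff.2 (by linarith)
    have e6 := Real.exp_pos (2 * (s + h))
    rw [e2, e3]
    set E := Real.exp (2 * (s + h))
    set X := Real.exp (-(2 * h))
    have e7 : (1 - X) ^ 2 ≤ (2 * h) ^ 2 := by
      apply pow_le_pow_left₀ (by linarith)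
      linarith
    have e8 : E * (1 - X) ^ 2 ≤ 1 * (2 * h) ^ 2 := by
      apply mul_le_mul e1 e7 (by positivity) zero_le_one
    nlinarith
  rcases le_total 0 (s - h) with hB | hB
  · rw [ph_nonneg hA, ph_nonneg hB, ph_nonneg (by linarith)]
    nlinarith
  rcases le_total 0 s with hC | hC
  · rw [ph_nonneg hA, ph_nonpos hB, ph_nonneg hC]
    have e1 := exp_neg_le (y := 2 * (h - s)) (by linarith)
    have e2 : -(2 * (h - s)) = 2 * (s - h) := by ring
    rw [e2] at e1
    nlinarith
  · rw [ph_nonneg hA, ph_nonpos hB, ph_nonpos hC]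
    set a := -s with ha
    have hs : s = -a := by rw [ha]; ring
    have ha0 : 0 ≤ a := by linarith
    have hah : a ≤ h := by linarith
    have e1 := exp_neg_le (y := 2 * h) (by linarith)
    have e2 := pade ha0
    have e3 : Real.exp (2 * (s - h)) = Real.exp (-(2 * a)) * Real.exp (-(2 * h)) := by
      rw [← Real.exp_add, hs]; congr 1; ring
    have e4 : Real.exp (2 * s) = Real.exp (-(2 * a)) := by rw [hs]; congr 1; ring
    rw [e3, e4, hs]
    set X := Real.exp (-(2 * a))
    set Y := Real.exp (-(2 * h))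
    have hX : 0 < X := Real.exp_pos _
    have hB' : 0 ≤ 1 / 2 + h - h ^ 2 := by nlinarith
    have e5 : X * Y ≤ X * (1 - 2 * h + (2 * h) ^ 2 / 2) := mul_le_mul_of_nonneg_left e1 hX.le
    -- goal: h - a + (X Y - 1)/2 - (X - 1) ≤ 2 h²
    have e6 : -a + h + (X * Y - 1) / 2 - 2 * ((X - 1) / 2) ≤
        h - a + 1 / 2 - X * (1 / 2 + h - h ^ 2) := by nlinarith
    have e7 : (1 + a) * (X * (1 / 2 + h - h ^ 2)) ≥ (1 - a) * (1 / 2 + h - h ^ 2) := by
      nlinarith
    have e8 : (1 + a) * (h - a + 1 / 2 - X * (1 / 2 + h - h ^ 2)) ≤ (1 + a) * (2 * h ^ 2) := by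
      have e9 : (1 + a) * (h - a + 1 / 2) - (1 - a) * (1 / 2 + h - h ^ 2) ≤
          (1 + a) * (2 * h ^ 2) := by
        nlinarith [sq_nonneg (h - a), mul_nonneg ha0 (sq_nonneg h)]
      linarith
    have e10 := le_of_mul_le_mul_left e8 (by linarith : (0 : ℝ) < 1 + a)
    linarith

lemma U_ph {ρ r : ℝ} (hρ : 0 < ρ) (hr : 0 < r) :
    U ρ r = Real.log ρ + ph (Real.log r - Real.log ρ) := by
  unfold U ph
  by_cases h : r ≤ ρ
  · have h1 : Real.log r - Real.log ρ ≤ 0 := by
      have := Real.log_le_log hr h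
      linarith
    rw [if_pos h, if_pos h1]
    have h2 : Real.exp (2 * (Real.log r - Real.log ρ)) = r ^ 2 / ρ ^ 2 := by
      rw [mul_comm, Real.exp_mul, Real.exp_sub, Real.exp_log hr, Real.exp_log hρ]
      rw [show (2 : ℝ) = ((2 : ℕ) : ℝ) by norm_num, Real.rpow_natCast, div_pow]
    rw [h2]
    ring
  · have h1 : ¬ (Real.log r - Real.log ρ ≤ 0) := by
      push Not at h ⊢
      have := Real.log_lt_log hρ h
      linarith
    rw [if_neg h, if_neg h1]
    ring

lemma U_mono {ρ r s : ℝ} (hρ : 0 < ρ) (hr : 0 ≤ r) (hrs : r ≤ s) : U ρ r ≤ U ρ s := by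
  unfold U
  by_cases h : s ≤ ρ
  · rw [if_pos (hrs.trans h), if_pos h]
    have : r ^ 2 / ρ ^ 2 ≤ s ^ 2 / ρ ^ 2 := by gcongr
    linarith
  · rw [if_neg h]
    push Not at h
    by_cases h1 : r ≤ ρ
    · rw [if_pos h1]
      have h2 : r ^ 2 / ρ ^ 2 ≤ 1 := by
        rw [div_le_one (by positivity)]
        gcongr
      have h3 := Real.log_le_log hρ h.le
      linarith
    · rw [if_neg h1]
      push Not at h1
      exact Real.log_le_log (hρ.trans h1) hrs

theorem uu : S_UU := by
  refine ⟨fun ρ hρ hρe => ?_, fun ρ hρ hρe => ?_⟩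
  · have hlog : Real.log ρ < 1 / 2 := by
      have h1 := Real.log_lt_log (by positivity) hρe
      rw [Real.log_exp, Real.log_pow] at h1
      push_cast at h1
      linarith
    have hr0 : 0 < r0 ρ := by
      unfold r0
      split_ifs with h
      · exact one_pos
      · have : 0 < 1 - 2 * Real.log ρ := by linarith
        positivity
    have hU0 : U ρ (r0 ρ) = 0 := by
      unfold r0
      split_ifs with h
      · unfold U
        split_ifs with h1
        · have : ρ = 1 := le_antisymm h h1
          subst this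
          simp
        · simp
      · push Not at h
        have h1 : 0 < 1 - 2 * Real.log ρ := by linarith
        have h2 : 0 < Real.log ρ := Real.log_pos h
        have h3 : Real.sqrt (1 - 2 * Real.log ρ) ≤ 1 := by
          rw [Real.sqrt_le_iff]
          constructor
          · exact zero_le_one
          · linarith
        unfold U
        rw [if_pos (by nlinarith), mul_pow, Real.sq_sqrt h1.le]
        field_simp
        ring
    refine ⟨hr0, hU0, ?_, ?_⟩
    · set s := Real.log (r0 ρ) - Real.log ρ with hs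
      have hph : ph s = - Real.log ρ := by
        have h1 := U_ph hρ hr0
        rw [hU0] at h1
        linarith
      have hUe : ∀ x : ℝ, U ρ (r0 ρ * Real.exp x) = Real.log ρ + ph (s + x) := by
        intro x
        rw [U_ph hρ (by positivity), Real.log_mul hr0.ne' (Real.exp_pos _).ne', Real.log_exp]
        congr 2
        rw [hs]
        ring
      refine ⟨dph (s - 1), dph_pos _, fun h h0 h1 => ⟨fun r hr hr' => ?_, fun r hr' => ?_, ?_⟩⟩
      · refine (U_mono hρ hr hr').trans ?_
        rw [hUe]
        have h2 := tangent (s + -h) s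
        have h3 : dph (s - 1) ≤ dph (s + -h) := dph_mono (by linarith)
        nlinarith
      · refine le_trans ?_ (U_mono hρ (by positivity) hr')
        rw [hUe]
        have h2 := tangent s (s + h)
        have h3 : dph (s - 1) ≤ dph s := dph_mono (by linarith)
        nlinarith
      · rw [hUe, hUe]
        have h2 := second s h h0 h1
        have h3 : s + -h = s - h := by ring
        rw [h3]
        linarith
    · refine ⟨min (r0 ρ / 2 / ρ ^ 2) (1 / (2 * r0 ρ)), lt_min (by positivity) (by positivity),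
        fun w h1 h2 => ?_⟩
      unfold V
      split_ifs with h
      · refine (min_le_left _ _).trans ?_
        rw [norm_div, RCLike.norm_conj, norm_pow, Complex.norm_real, Real.norm_of_nonneg hρ.le]
        gcongr
      · refine (min_le_right _ _).trans ?_
        rw [norm_inv, ← one_div]
        have : 0 < ‖w‖ := by linarith
        gcongr
  · have hlog : 1 / 2 < Real.log ρ := by
      have h1 := Real.log_lt_log (Real.exp_pos 1) hρe
      rw [Real.log_exp, Real.log_pow] at h1
      push_cast at h1
      linarith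
    refine ⟨Real.log ρ - 1 / 2, by linarith, fun r hr => ?_⟩
    unfold U
    split_ifs with h
    · have : 0 ≤ r ^ 2 / ρ ^ 2 := by positivity
      linarith
    · push Not at h
      have := Real.log_le_log hρ h.le
      linarith

end Pool.Agent.W571.RR
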